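import Pool.Agent.Helper15.FC.St3

set_option autoImplicit false

open Pool.Agent.Helper15.FC Polynomial

namespace Pool.Agent.Helper89.FC

noncomputable section

private theorem kap_nn {F : Type} [Field F] [Fintype F] (k : ℕ) (r : F[X]) (n : ℕ) :
    0 ≤ kap k r n := by
  unfold kap
  refine Finset.sum_nonneg fun i _ => Finset.sum_nonneg fun f _ => ?_
  exact mul_nonneg (Nat.cast_nonneg _) (pow_nonneg (inv_nonneg.2 (Real.sqrt_nonneg _)) _)

private theorem phi_le {F : Type} [Field F] [Fintype F] (r : F[X]) :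
    (phi r : ℝ) ≤ qr F ^ r.natDegree := by
  classical
  have h : phi r ≤ Fintype.card F ^ r.natDegree := by
    rw [← card_Lw F r.natDegree]
    unfold phi
    exact Finset.card_filter_le _ _
  exact_mod_cast h

private theorem one_le_qr (F : Type) [Field F] [Fintype F] : (1 : ℝ) ≤ qr F := by
  have : 0 < Fintype.card F := Fintype.card_pos
  change (1 : ℝ) ≤ (Fintype.card F : ℝ)
  exact_mod_cast this

private theorem mem_AC_of_Pr {F : Type} [Field F] [Fintype F] (hACF : StACF) {r : F[X]}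
    (hr : r.Monic) {ν : AddChar F[X] ℂ} (h : ν ∈ Pr r) : ν ∈ AC r := by
  classical
  unfold Pr at h
  rw [Finset.mem_filter] at h
  exact (((hACF F).2 r hr).2.1 ν).1 h.1

private theorem per {F : Type} [Field F] {r : F[X]} {ν : AddChar F[X] ℂ}
    (h : ν ∈ AC r) (f g : F[X]) (hd : r ∣ f - g) : ν f = ν g := by
  obtain ⟨c, hc⟩ := hd
  have e : f = g + r * c := by rw [← hc]; ring
  rw [e, AddChar.map_add_eq_mul]
  have h2 : ν (r * c) = 1 := h c
  rw [h2, mul_one]

/-- the common estimate -/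
private theorem final_bound {F : Type} [Field F] [Fintype F] (k n m Q C N : ℕ) (κ : ℝ) (r : F[X])
    (e : ℕ) (hN : N ≤ n) (he : e + r.natDegree ≤ n + m - Q) (hk : kap k r n ≤ κ) :
    kap k r n ^ 2 * (qr F ^ e * phi r * (N : ℝ) ^ C) ≤
      κ ^ 2 * qr F ^ (n + m - Q) * (n : ℝ) ^ C := by
  have h0 := kap_nn (F := F) k r n
  have h1 : kap k r n ^ 2 ≤ κ ^ 2 := by
    exact pow_le_pow_left₀ h0 hk 2
  have hq := one_le_qr F
  have hq0 : (0 : ℝ) ≤ qr F := by linarith
  have h2 : qr F ^ e * (phi r : ℝ) ≤ qr F ^ (n + m - Q) := by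
    calc qr F ^ e * (phi r : ℝ) ≤ qr F ^ e * qr F ^ r.natDegree :=
          mul_le_mul_of_nonneg_left (phi_le r) (pow_nonneg hq0 _)
      _ = qr F ^ (e + r.natDegree) := (pow_add _ _ _).symm
      _ ≤ qr F ^ (n + m - Q) := pow_le_pow_right₀ hq he
  have h3 : (N : ℝ) ^ C ≤ (n : ℝ) ^ C := by
    refine pow_le_pow_left₀ (Nat.cast_nonneg _) ?_ C
    exact_mod_cast hN
  have h4 : 0 ≤ qr F ^ e * (phi r : ℝ) := mul_nonneg (pow_nonneg hq0 _) (Nat.cast_nonneg _)
  calc kap k r n ^ 2 * (qr F ^ e * phi r * (N : ℝ) ^ C)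
      ≤ κ ^ 2 * (qr F ^ (n + m - Q) * (n : ℝ) ^ C) := by
        refine mul_le_mul h1 ?_ ?_ (sq_nonneg _)
        · exact mul_le_mul h2 h3 (pow_nonneg (Nat.cast_nonneg _) _) (pow_nonneg hq0 _)
        · exact mul_nonneg h4 (pow_nonneg (Nat.cast_nonneg _) _)
    _ = κ ^ 2 * qr F ^ (n + m - Q) * (n : ℝ) ^ C := by ring

/-- the main part when a primitive character agrees with `η` -/
private theorem Me_single {F : Type} [Field F] [Fintype F] (hUNI : StUNI)
    (k n m Q : ℕ) (η : AddChar F[X] ℂ) (G r0 : F[X]) (ν0 : AddChar F[X] ℂ) (hQ : 2 * Q ≤ m)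
    (hr0 : r0.Monic) (hd : r0.natDegree ≤ Q) (hν0 : ν0 ∈ Pr r0) (hag : ∀ g ∈ Lw F m, η g = ν0 g) :
    Me k n m Q η G = ν0 (-(X ^ m * G)) * ((Fintype.card F : ℂ) ^ (n - m))⁻¹ * Sn k n ν0 := by
  classical
  have huni : ∀ (r : F[X]) (ν : AddChar F[X] ℂ), r.Monic → r.natDegree ≤ Q → ν ∈ Pr r →
      (∀ g ∈ Lw F m, η g = ν g) → r = r0 ∧ ν = ν0 := by
    intro r ν hr hrd hν h
    exact hUNI F m Q r r0 ν ν0 hQ hr hr0 hrd hd hν hν0
      (fun g hg => by rw [← h g hg, ← hag g hg])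
  unfold Me
  rw [Finset.sum_eq_single r0.natDegree]
  · rw [Finset.sum_eq_single r0]
    · rw [Finset.sum_eq_single ν0]
      · intro ν hν hne
        rw [Finset.mem_filter] at hν
        exact absurd (huni r0 ν hr0 hd hν.1 hν.2).2 hne
      · intro hn
        exfalso
        apply hn
        rw [Finset.mem_filter]
        exact ⟨hν0, hag⟩
    · intro r hr hne
      rw [mem_Mn] at hr
      refine Finset.sum_eq_zero fun ν hν => ?_
      rw [Finset.mem_filter] at hν
      exact absurd (huni r ν hr.1 (by rw [hr.2]; exact hd) hν.1 hν.2).1 hne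
    · intro hn
      exact absurd (mem_Mn.2 ⟨hr0, rfl⟩) hn
  · intro i hi hne
    refine Finset.sum_eq_zero fun r hr => Finset.sum_eq_zero fun ν hν => ?_
    rw [mem_Mn] at hr
    rw [Finset.mem_range] at hi
    rw [Finset.mem_filter] at hν
    have := (huni r ν hr.1 (by rw [hr.2]; omega) hν.1 hν.2).1
    exact absurd (by rw [← this, hr.2]) hne
  · intro hn
    exfalso
    apply hn
    rw [Finset.mem_range]
    omega

/-- the main part when no primitive character agrees with `η` -/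
private theorem Me_zero {F : Type} [Field F] [Fintype F]
    (k n m Q : ℕ) (η : AddChar F[X] ℂ) (G : F[X])
    (hno : ¬ ∃ (r : F[X]) (ν : AddChar F[X] ℂ), r.Monic ∧ r.natDegree ≤ Q ∧ ν ∈ Pr r ∧
      ∀ g ∈ Lw F m, η g = ν g) :
    Me k n m Q η G = 0 := by
  classical
  unfold Me
  refine Finset.sum_eq_zero fun i hi => Finset.sum_eq_zero fun r hr =>
    Finset.sum_eq_zero fun ν hν => ?_
  rw [mem_Mn] at hr
  rw [Finset.mem_range] at hi
  rw [Finset.mem_filter] at hν
  exact absurd ⟨r, ν, hr.1, by rw [hr.2]; omega, hν.1, hν.2⟩ hno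

/-- **EET** -/
theorem hEET (hACF : StACF) (hDIR : StDIR) (hUNI : StUNI) (hEMN : StEMN) (hEBD : StEBD) :
    StEET := by
  classical
  intro F _ _ k
  obtain ⟨C, hC⟩ := hEBD F k
  refine ⟨C, ?_⟩
  intro n m Q κ η hn hQ hQn hη hκ
  have hnorm : ∀ (ν : AddChar F[X] ℂ) (g : F[X]), ‖ν g‖ = 1 := fun ν g => ((hACF F).1 ν g).1
  by_cases hex : ∃ (r : F[X]) (ν : AddChar F[X] ℂ), r.Monic ∧ r.natDegree ≤ Q ∧ ν ∈ Pr r ∧
      ∀ g ∈ Lw F m, η g = ν g
  · obtain ⟨r0, ν0, hr0, hd, hν0, hag⟩ := hex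
    have hAC := mem_AC_of_Pr hACF hr0 hν0
    have hE := hC (n - m) m r0 (fun f => ν0 f) (by omega) hr0 (by omega)
      (fun f => (hnorm ν0 f).le) (fun f g h => per hAC f g h)
    have hnm : n - m + m = n := by omega
    rw [hnm] at hE
    have hterm : ∀ G : F[X], ‖Ae k m η G - Me k n m Q η G‖ ^ 2 =
        ‖∑ g ∈ Lw F m, (dk k (X ^ m * G + g) : ℂ) * ν0 (X ^ m * G + g) -
          ((qr F ^ (n - m) : ℝ) : ℂ)⁻¹ * ∑ f ∈ Mn F n, (dk k f : ℂ) * ν0 f‖ ^ 2 := by
      intro G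
      rw [Me_single hUNI k n m Q η G r0 ν0 hQ hr0 hd hν0 hag]
      have h1 : Ae k m η G = ν0 (-(X ^ m * G)) *
          ∑ g ∈ Lw F m, (dk k (X ^ m * G + g) : ℂ) * ν0 (X ^ m * G + g) := by
        unfold Ae
        rw [Finset.mul_sum]
        refine Finset.sum_congr rfl fun g hg => ?_
        rw [hag g hg]
        have h2 : ν0 g = ν0 (-(X ^ m * G)) * ν0 (X ^ m * G + g) := by
          rw [← AddChar.map_add_eq_mul]
          congr 1
          ring
        rw [h2]
        ring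
      rw [h1]
      have h3 : ((qr F ^ (n - m) : ℝ) : ℂ)⁻¹ = ((Fintype.card F : ℂ) ^ (n - m))⁻¹ := by
        push_cast
        rfl
      rw [h3]
      have h4 : ν0 (-(X ^ m * G)) *
          ∑ g ∈ Lw F m, (dk k (X ^ m * G + g) : ℂ) * ν0 (X ^ m * G + g) -
          ν0 (-(X ^ m * G)) * ((Fintype.card F : ℂ) ^ (n - m))⁻¹ * Sn k n ν0 =
          ν0 (-(X ^ m * G)) * (∑ g ∈ Lw F m, (dk k (X ^ m * G + g) : ℂ) * ν0 (X ^ m * G + g) -
          ((Fintype.card F : ℂ) ^ (n - m))⁻¹ * Sn k n ν0) := by ring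
      rw [h4, norm_mul, hnorm, one_mul]
      rfl
    rw [Finset.sum_congr rfl (fun G _ => hterm G)]
    refine le_trans hE ?_
    exact final_bound k n m Q C (n - m) κ r0 n (by omega) (by omega) (hκ r0 hr0 hd)
  · have hM : ∀ G : F[X], Ae k m η G - Me k n m Q η G = Ae k m η G := by
      intro G
      rw [Me_zero k n m Q η G hex, sub_zero]
    simp_rw [hM]
    obtain ⟨r, ν, hr, hd, hν, hag⟩ := hDIR F m Q η hQ hη
    have hAC := mem_AC_of_Pr hACF hr hν
    have hj : r.natDegree + Q < m := by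
      by_contra hcon
      apply hex
      refine ⟨r, ν, hr, hd, hν, ?_⟩
      have : r.natDegree + Q = m := by omega
      rw [← this]
      exact hag
    have hne : ∃ g ∈ Lw F m, η g ≠ ν g := by
      by_contra hcon
      push Not at hcon
      exact hex ⟨r, ν, hr, hd, hν, hcon⟩
    set j : ℕ := r.natDegree + Q with hjdef
    have hE1 := hEMN F k n m j r ν η (by omega) hj hAC hag hne
    have hE := hC (n - j) j r (fun f => ν f) (by omega) hr (by omega)
      (fun f => (hnorm ν f).le) (fun f g h => per hAC f g h)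
    have hnj : n - j + j = n := by omega
    rw [hnj] at hE
    have hq := one_le_qr F
    have hq0 : (0 : ℝ) ≤ qr F := by linarith
    have hE2 : qr F ^ (m - j) * ∑ G ∈ Mn F (n - j),
        ‖∑ g ∈ Lw F j, (dk k (X ^ j * G + g) : ℂ) * ν (X ^ j * G + g) -
          ((qr F ^ (n - j) : ℝ) : ℂ)⁻¹ * Sn k n ν‖ ^ 2 ≤
        kap k r n ^ 2 * (qr F ^ (m - j + n) * phi r * ((n - j : ℕ) : ℝ) ^ C) := by
      calc qr F ^ (m - j) * ∑ G ∈ Mn F (n - j),
          ‖∑ g ∈ Lw F j, (dk k (X ^ j * G + g) : ℂ) * ν (X ^ j * G + g) -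
            ((qr F ^ (n - j) : ℝ) : ℂ)⁻¹ * Sn k n ν‖ ^ 2
          ≤ qr F ^ (m - j) * (kap k r n ^ 2 * (qr F ^ n * phi r * ((n - j : ℕ) : ℝ) ^ C)) :=
            mul_le_mul_of_nonneg_left hE (pow_nonneg hq0 _)
        _ = kap k r n ^ 2 * (qr F ^ (m - j + n) * phi r * ((n - j : ℕ) : ℝ) ^ C) := by
            rw [pow_add]; ring
    refine le_trans hE1 (le_trans hE2 ?_)
    exact final_bound k n m Q C (n - j) κ r (m - j + n) (by omega) (by omega) (hκ r hr hd)

end

end Pool.Agent.Helper89.FC
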