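import Pool.Agent.Helper15.FC.St1

set_option autoImplicit false

open Pool.Agent.Helper15.FC Polynomial

namespace Pool.Agent.Helper89.FC

noncomputable section

private theorem isUnit_mk_of_coprime {F : Type} [Field F] {r f : F[X]} (h : IsCoprime f r) :
    IsUnit (AdjoinRoot.mk r f) := by
  obtain ⟨a, b, hab⟩ := h
  refine IsUnit.of_mul_eq_one (AdjoinRoot.mk r a) ?_
  rw [← map_mul, ← map_one (AdjoinRoot.mk r), AdjoinRoot.mk_eq_mk]
  refine ⟨-b, ?_⟩
  linear_combination hab

private theorem coprime_of_isUnit_mk {F : Type} [Field F] {r f : F[X]}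
    (h : IsUnit (AdjoinRoot.mk r f)) : IsCoprime f r := by
  obtain ⟨y, hy⟩ := h.exists_right_inv
  obtain ⟨g, rfl⟩ := AdjoinRoot.mk_surjective y
  rw [← map_mul, ← map_one (AdjoinRoot.mk r), AdjoinRoot.mk_eq_mk] at hy
  obtain ⟨b, hb⟩ := hy
  refine ⟨g, -b, ?_⟩
  linear_combination hb

private theorem isUnit_rev {F : Type} [Field F] {N : ℕ} {f : F[X]} (hf : f.Monic) :
    IsUnit (AdjoinRoot.mk (X ^ (N + 1) : F[X]) f.reverse) := by
  apply isUnit_mk_of_coprime
  apply IsCoprime.pow_right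
  have hX : Irreducible (X : F[X]) := Polynomial.irreducible_X
  refine IsCoprime.symm ((Irreducible.coprime_iff_not_dvd hX).2 ?_)
  rw [Polynomial.X_dvd_iff, Polynomial.coeff_zero_reverse, hf.leadingCoeff]
  exact one_ne_zero

private theorem isUnit_of_mem_Ucl {F : Type} [Field F] {r : F[X]} {N : ℕ}
    {c : AdjoinRoot r × TN F N} (hc : c ∈ Ucl r N) : IsUnit c := by
  obtain ⟨f, hf, hfr, rfl⟩ := hc
  rw [Prod.isUnit_iff]
  exact ⟨isUnit_mk_of_coprime hfr, isUnit_rev hf⟩

/-- the sum of a multiplicative function over a finite set of units closed under products -/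
private theorem sum_closed {M : Type} [CommMonoid M] (H : Finset M) (Xt : M → ℂ)
    (hX : ∀ a b : M, Xt (a * b) = Xt a * Xt b) (hu : ∀ c ∈ H, IsUnit c)
    (hm : ∀ c ∈ H, ∀ c' ∈ H, c * c' ∈ H) :
    ∃ lam : ℝ, 0 ≤ lam ∧ (lam : ℂ) = ∑ c ∈ H, Xt c := by
  classical
  by_cases hall : ∀ c ∈ H, Xt c = 1
  · refine ⟨(H.card : ℝ), Nat.cast_nonneg _, ?_⟩
    rw [Finset.sum_congr rfl hall]
    simp
  · push Not at hall
    obtain ⟨c0, hc0, hne⟩ := hall
    refine ⟨0, le_refl _, ?_⟩
    have hinj : ∀ a ∈ H, ∀ b ∈ H, c0 * a = c0 * b → a = b := by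
      intro a _ b _ hab
      exact (hu c0 hc0).mul_left_cancel hab
    have himg : H.image (fun c => c0 * c) = H := by
      apply Finset.eq_of_subset_of_card_le
      · intro x hx
        rw [Finset.mem_image] at hx
        obtain ⟨c, hc, rfl⟩ := hx
        exact hm c0 hc0 c hc
      · rw [Finset.card_image_of_injOn]
        intro a ha b hb hab
        exact hinj a ha b hb hab
    have h1 : ∑ c ∈ H, Xt c = Xt c0 * ∑ c ∈ H, Xt c := by
      rw [Finset.mul_sum]
      conv_lhs => rw [← himg]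
      rw [Finset.sum_image hinj]
      exact Finset.sum_congr rfl (fun c _ => hX c0 c)
    have h2 : (Xt c0 - 1) * ∑ c ∈ H, Xt c = 0 := by
      linear_combination -h1
    rcases mul_eq_zero.1 h2 with h3 | h3
    · exact absurd (sub_eq_zero.1 h3) hne
    · rw [h3]; simp

/-- the counting argument: classes of the elements of a finite type -/
private theorem count_core {M L : Type} [Fintype L] (U H : Finset M) (Xt : M → ℂ) (g : L → M)
    (h : ℕ) (Q P C E lam : ℝ) (hh : 1 ≤ h) (hHU : H ⊆ U) (hHc : H.card ≤ h) (hC : 0 ≤ C)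
    (hP : 1 ≤ P) (hE : 0 ≤ E) (hQ0 : 0 ≤ Q)
    (hlam : (lam : ℂ) = ∑ c ∈ H, Xt c)
    (hX1 : ∀ c ∈ U, ‖Xt c‖ ≤ 1)
    (hX0 : ∀ a : L, g a ∉ U → Xt (g a) = 0)
    (hup : ∀ c ∈ U, (Nat.card {a : L // g a = c} : ℝ) ≤ Q / h + C * P)
    (hsm : ∀ c ∈ U, c ∉ H → (Nat.card {a : L // g a = c} : ℝ) ≤ C)
    (htot : Q - E ≤ (Nat.card {a : L // g a ∈ U} : ℝ)) :
    ‖∑ a : L, Xt (g a) - ((lam / h : ℝ) : ℂ) * (Q : ℂ)‖ ≤
      (h * (E + h * C + U.card * C) + U.card * C) * P := by
  classical
  set n : M → ℝ := fun c => (Nat.card {a : L // g a = c} : ℝ) with hn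
  have hh0 : (0 : ℝ) < h := by exact_mod_cast hh
  have hncard : ∀ c, n c = ∑ a : L, if g a = c then (1 : ℝ) else 0 := by
    intro c
    change (Nat.card {a : L // g a = c} : ℝ) = _
    rw [Nat.card_eq_fintype_card, Fintype.card_subtype, Finset.sum_ite, Finset.sum_const_zero,
      add_zero, Finset.sum_const, nsmul_eq_mul, mul_one]
  have hn0 : ∀ c, 0 ≤ n c := fun c => Nat.cast_nonneg _
  have htotal : (Nat.card {a : L // g a ∈ U} : ℝ) = ∑ c ∈ U, n c := by
    simp_rw [hncard]
    rw [Finset.sum_comm]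
    rw [Nat.card_eq_fintype_card, Fintype.card_subtype]
    have : ∀ a : L, ∑ c ∈ U, (if g a = c then (1 : ℝ) else 0) = if g a ∈ U then 1 else 0 := by
      intro a
      rw [Finset.sum_ite_eq]
    simp_rw [this]
    rw [Finset.sum_ite, Finset.sum_const_zero, add_zero, Finset.sum_const, nsmul_eq_mul, mul_one]
  have hsum : ∑ a : L, Xt (g a) = ∑ c ∈ U, (n c : ℂ) * Xt c := by
    have h1 : ∀ c, (n c : ℂ) * Xt c = ∑ a : L, if g a = c then Xt c else 0 := by
      intro c
      rw [hncard c]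
      push_cast
      rw [Finset.sum_mul]
      refine Finset.sum_congr rfl fun a _ => ?_
      split_ifs <;> simp
    simp_rw [h1]
    rw [Finset.sum_comm]
    refine Finset.sum_congr rfl fun a _ => ?_
    rw [Finset.sum_ite_eq]
    split_ifs with h2
    · rfl
    · exact hX0 a h2
  have hcardU : (H.card : ℝ) ≤ h := by exact_mod_cast hHc
  have hQh : 0 ≤ Q / h := div_nonneg hQ0 hh0.le
  have hCP : 0 ≤ C * P := mul_nonneg hC (by linarith)
  -- the sum over the complement of H
  have hout : ∑ c ∈ U \ H, n c ≤ U.card * C := by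
    calc ∑ c ∈ U \ H, n c ≤ ∑ c ∈ U \ H, C := by
          refine Finset.sum_le_sum fun c hc => ?_
          rw [Finset.mem_sdiff] at hc
          exact hsm c hc.1 hc.2
      _ = ((U \ H).card : ℝ) * C := by rw [Finset.sum_const, nsmul_eq_mul]
      _ ≤ U.card * C := by
          refine mul_le_mul_of_nonneg_right ?_ hC
          exact_mod_cast Finset.card_le_card Finset.sdiff_subset
  have hsplit : ∑ c ∈ U, n c = ∑ c ∈ H, n c + ∑ c ∈ U \ H, n c := by
    rw [add_comm, Finset.sum_sdiff hHU]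
  -- lower bound on H
  have hlow : ∀ c ∈ H, Q / h - (E + h * C + U.card * C) * P ≤ n c := by
    intro c hc
    have h1 : ∑ c' ∈ H, n c' = n c + ∑ c' ∈ H.erase c, n c' := by
      rw [Finset.add_sum_erase _ _ hc]
    have h2 : ∑ c' ∈ H.erase c, n c' ≤ ((h : ℝ) - 1) * (Q / h + C * P) := by
      calc ∑ c' ∈ H.erase c, n c' ≤ ∑ c' ∈ H.erase c, (Q / h + C * P) := by
            refine Finset.sum_le_sum fun c' hc' => ?_
            exact hup c' (hHU (Finset.mem_of_mem_erase hc'))
        _ = ((H.erase c).card : ℝ) * (Q / h + C * P) := by rw [Finset.sum_const, nsmul_eq_mul]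
        _ ≤ ((h : ℝ) - 1) * (Q / h + C * P) := by
            refine mul_le_mul_of_nonneg_right ?_ (by linarith)
            rw [Finset.card_erase_of_mem hc]
            have : 1 ≤ H.card := Finset.card_pos.2 ⟨c, hc⟩
            rw [Nat.cast_sub this]
            push_cast
            linarith
    have h3 : Q - E ≤ n c + ((h : ℝ) - 1) * (Q / h + C * P) + U.card * C := by
      have := htot
      rw [htotal, hsplit, h1] at this
      linarith
    have h4 : ((h : ℝ) - 1) * (Q / h + C * P) = Q - Q / h + (h - 1) * (C * P) := by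
      field_simp
    have h5 : E ≤ E * P := by nlinarith
    have h6 : (U.card : ℝ) * C ≤ U.card * C * P := by
      have : 0 ≤ (U.card : ℝ) * C := mul_nonneg (Nat.cast_nonneg _) hC
      nlinarith
    have h7 : (E + h * C + U.card * C) * P = E * P + h * (C * P) + U.card * C * P := by ring
    rw [h7]
    rw [h4] at h3
    linarith
  have hmid : ∀ c ∈ H, |n c - Q / h| ≤ (E + h * C + U.card * C) * P := by
    intro c hc
    rw [abs_le]
    refine ⟨by linarith [hlow c hc], ?_⟩
    have h1 := hup c (hHU hc)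
    have h2 : C * P ≤ (E + h * C + U.card * C) * P := by
      refine mul_le_mul_of_nonneg_right ?_ (by linarith)
      have h3 : C ≤ h * C := by
        have : (1 : ℝ) ≤ h := by exact_mod_cast hh
        nlinarith
      have h4 : 0 ≤ (U.card : ℝ) * C := mul_nonneg (Nat.cast_nonneg _) hC
      linarith
    linarith
  -- the final estimate
  have hdec : ∑ a : L, Xt (g a) - ((lam / h : ℝ) : ℂ) * (Q : ℂ) =
      ∑ c ∈ H, ((n c - Q / h : ℝ) : ℂ) * Xt c + ∑ c ∈ U \ H, (n c : ℂ) * Xt c := by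
    rw [hsum, ← Finset.sum_sdiff hHU]
    have h1 : ((lam / h : ℝ) : ℂ) * (Q : ℂ) = ∑ c ∈ H, ((Q / h : ℝ) : ℂ) * Xt c := by
      rw [← Finset.mul_sum, ← hlam]
      push_cast
      ring
    rw [h1]
    have h2 : ∑ c ∈ H, ((n c - Q / h : ℝ) : ℂ) * Xt c =
        ∑ c ∈ H, (n c : ℂ) * Xt c - ∑ c ∈ H, ((Q / h : ℝ) : ℂ) * Xt c := by
      rw [← Finset.sum_sub_distrib]
      refine Finset.sum_congr rfl fun c _ => ?_
      push_cast
      ring
    rw [h2]
    ring
  rw [hdec]
  have hA : ‖∑ c ∈ H, ((n c - Q / h : ℝ) : ℂ) * Xt c‖ ≤ h * (E + h * C + U.card * C) * P := by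
    calc ‖∑ c ∈ H, ((n c - Q / h : ℝ) : ℂ) * Xt c‖
        ≤ ∑ c ∈ H, ‖((n c - Q / h : ℝ) : ℂ) * Xt c‖ := norm_sum_le _ _
      _ ≤ ∑ c ∈ H, (E + h * C + U.card * C) * P := by
          refine Finset.sum_le_sum fun c hc => ?_
          rw [norm_mul, Complex.norm_real, Real.norm_eq_abs]
          have h1 := hmid c hc
          have h2 := hX1 c (hHU hc)
          calc |n c - Q / h| * ‖Xt c‖ ≤ |n c - Q / h| * 1 :=
                mul_le_mul_of_nonneg_left h2 (abs_nonneg _)
            _ ≤ _ := by rw [mul_one]; exact h1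
      _ = (H.card : ℝ) * ((E + h * C + U.card * C) * P) := by rw [Finset.sum_const, nsmul_eq_mul]
      _ ≤ h * ((E + h * C + U.card * C) * P) := by
          refine mul_le_mul_of_nonneg_right hcardU ?_
          refine mul_nonneg ?_ (by linarith)
          have h3 : 0 ≤ (h : ℝ) * C := mul_nonneg hh0.le hC
          have h4 : 0 ≤ (U.card : ℝ) * C := mul_nonneg (Nat.cast_nonneg _) hC
          linarith
      _ = h * (E + h * C + U.card * C) * P := by ring
  have hB : ‖∑ c ∈ U \ H, (n c : ℂ) * Xt c‖ ≤ U.card * C * P := by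
    calc ‖∑ c ∈ U \ H, (n c : ℂ) * Xt c‖ ≤ ∑ c ∈ U \ H, ‖(n c : ℂ) * Xt c‖ := norm_sum_le _ _
      _ ≤ ∑ c ∈ U \ H, n c := by
          refine Finset.sum_le_sum fun c hc => ?_
          rw [Finset.mem_sdiff] at hc
          rw [norm_mul, Complex.norm_real, Real.norm_eq_abs, abs_of_nonneg (hn0 c)]
          calc n c * ‖Xt c‖ ≤ n c * 1 := mul_le_mul_of_nonneg_left (hX1 c hc.1) (hn0 c)
            _ = n c := mul_one _
      _ ≤ U.card * C := hout
      _ ≤ U.card * C * P := by
          have : 0 ≤ (U.card : ℝ) * C := mul_nonneg (Nat.cast_nonneg _) hC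
          nlinarith
  calc ‖∑ c ∈ H, ((n c - Q / h : ℝ) : ℂ) * Xt c + ∑ c ∈ U \ H, (n c : ℂ) * Xt c‖
      ≤ ‖∑ c ∈ H, ((n c - Q / h : ℝ) : ℂ) * Xt c‖ + ‖∑ c ∈ U \ H, (n c : ℂ) * Xt c‖ :=
        norm_add_le _ _
    _ ≤ h * (E + h * C + U.card * C) * P + U.card * C * P := add_le_add hA hB
    _ = _ := by ring

/-- **HEC** -/
theorem hHEC (hPTS : StPTS) (hPRD : StPRD) (hGRP : StGRP) (hCMH : StCMH) : StHEC := by
  classical
  intro F _ _ r N χ ξ hr
  obtain ⟨s1, h, H, C, t0, hs1, hh, hC, hHU, hHc, hHm, hcount⟩ := hGRP F r N hr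
  have : Finite (AdjoinRoot r) := finite_AR hr
  have : Finite (AdjoinRoot r × TN F N) := inferInstance
  have hCM := hCMH F r N χ ξ hr
  set Xt : AdjoinRoot r × TN F N → ℂ := fun c => χ c.1 * ξ c.2 with hXt
  set U : Finset (AdjoinRoot r × TN F N) := (Set.toFinite (Ucl r N)).toFinset with hU
  set HF : Finset (AdjoinRoot r × TN F N) := (Set.toFinite H).toFinset with hHF
  have memU : ∀ c, c ∈ U ↔ c ∈ Ucl r N := fun c => by rw [hU, Set.Finite.mem_toFinset]
  have memH : ∀ c, c ∈ HF ↔ c ∈ H := fun c => by rw [hHF, Set.Finite.mem_toFinset]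
  have hXmul : ∀ a b : AdjoinRoot r × TN F N, Xt (a * b) = Xt a * Xt b := by
    intro a b
    simp only [hXt, Prod.fst_mul, Prod.snd_mul, map_mul]
    ring
  obtain ⟨lam, hlam0, hlam⟩ := sum_closed HF Xt hXmul
    (fun c hc => isUnit_of_mem_Ucl (hHU ((memH c).1 hc)))
    (fun c hc c' hc' => (memH _).2 (hHm c ((memH c).1 hc) c' ((memH c').1 hc')))
  have hh0 : (0 : ℝ) < h := by exact_mod_cast hh
  refine ⟨s1, max t0 1, lam / h, h * ((r.natDegree : ℝ) + h * C + U.card * C) + U.card * C, hs1,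
    div_nonneg hlam0 hh0.le, ?_⟩
  intro t ht
  have ht0 : t0 ≤ t := le_trans (le_max_left _ _) ht
  have ht1 : 1 ≤ t := le_trans (le_max_right _ _) ht
  obtain ⟨L, _, _, _, hL, hup, hsm⟩ := hcount t ht0
  set s : ℕ := 2 * s1 * t with hs
  have hs0 : 1 ≤ s := by
    have : 0 < 2 * s1 * t := by positivity
    omega
  have hPsi := hPTS F L s (Hk r N χ ξ) hs0 hL hCM
  rw [← hPsi]
  set g : L → AdjoinRoot r × TN F N := fun a => cls r N (fa (F := F) s a) with hg
  have hgX : ∀ a : L, Hk r N χ ξ (fa s a) = Xt (g a) := fun a => rfl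
  simp_rw [hgX]
  have hq1 : (1 : ℝ) ≤ (Fintype.card F : ℝ) := by
    exact_mod_cast Fintype.card_pos
  have hP : (1 : ℝ) ≤ (Fintype.card F : ℝ) ^ (s1 * t) := one_le_pow₀ hq1
  have hmon : ∀ a : L, (fa (F := F) s a).Monic := fun a => (hPRD F L s a hs0 hL).1
  -- elements whose class is not in U
  have hbad : ∀ a : L, g a ∉ U → ¬ IsCoprime (fa (F := F) s a) r := by
    intro a ha hcop
    exact ha ((memU _).2 ⟨fa s a, hmon a, hcop, rfl⟩)
  have hX0 : ∀ a : L, g a ∉ U → Xt (g a) = 0 := by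
    intro a ha
    have h1 : ¬ IsUnit (AdjoinRoot.mk r (fa (F := F) s a)) :=
      fun hu => hbad a ha (coprime_of_isUnit_mk hu)
    change χ (AdjoinRoot.mk r (fa (F := F) s a)) * _ = 0
    rw [MulChar.map_nonunit χ h1, zero_mul]
  have hroot : ∀ a : L, g a ∉ U → a ∈ (r.map (algebraMap F L)).roots.toFinset := by
    intro a ha
    by_contra hna
    apply hbad a ha
    have hr0 : r.map (algebraMap F L) ≠ 0 := (hr.map _).ne_zero
    rw [Multiset.mem_toFinset, Polynomial.mem_roots hr0, Polynomial.IsRoot.def,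
      Polynomial.eval_map_algebraMap] at hna
    have hint : IsIntegral F a := Algebra.IsIntegral.isIntegral a
    have hirr := minpoly.irreducible hint
    have hnd : ¬ minpoly F a ∣ r := by
      rintro ⟨u, hu⟩
      apply hna
      rw [hu, map_mul, minpoly.aeval, zero_mul]
    exact IsCoprime.pow_left ((Irreducible.coprime_iff_not_dvd hirr).2 hnd)
  have htot : (Fintype.card F : ℝ) ^ s - (r.natDegree : ℝ) ≤
      (Nat.card {a : L // g a ∈ U} : ℝ) := by
    have h1 : Fintype.card L = (Finset.univ.filter (fun a : L => g a ∈ U)).card +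
        (Finset.univ.filter (fun a : L => ¬ g a ∈ U)).card := by
      rw [Finset.card_filter_add_card_filter_not, Finset.card_univ]
    have h2 : (Finset.univ.filter (fun a : L => ¬ g a ∈ U)).card ≤ r.natDegree := by
      calc (Finset.univ.filter (fun a : L => ¬ g a ∈ U)).card
          ≤ ((r.map (algebraMap F L)).roots.toFinset).card := by
            refine Finset.card_le_card fun a ha => ?_
            rw [Finset.mem_filter] at ha
            exact hroot a ha.2
        _ ≤ Multiset.card (r.map (algebraMap F L)).roots := Multiset.toFinset_card_le _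
        _ ≤ (r.map (algebraMap F L)).natDegree := Polynomial.card_roots' _
        _ ≤ r.natDegree := Polynomial.natDegree_map_le
    rw [Nat.card_eq_fintype_card, Fintype.card_subtype]
    have h3 : (Fintype.card L : ℝ) = (Fintype.card F : ℝ) ^ s := by
      rw [hL]; push_cast; rfl
    rw [← h3]
    have h4 : (Fintype.card L : ℝ) ≤ ((Finset.univ.filter (fun a : L => g a ∈ U)).card : ℝ) +
        (r.natDegree : ℝ) := by
      exact_mod_cast (by omega : Fintype.card L ≤
        (Finset.univ.filter (fun a : L => g a ∈ U)).card + r.natDegree)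
    linarith
  have hX1 : ∀ c ∈ U, ‖Xt c‖ ≤ 1 := by
    intro c hc
    obtain ⟨f, hf, -, rfl⟩ := (memU c).1 hc
    exact hCM.2.2 f hf
  have hcardH : HF.card ≤ h := by
    rw [hHF, ← Set.ncard_eq_toFinset_card H (Set.toFinite H)]
    exact hHc
  have key := count_core U HF Xt g h ((Fintype.card F : ℝ) ^ s)
    ((Fintype.card F : ℝ) ^ (s1 * t)) C (r.natDegree : ℝ) lam hh
    (fun c hc => (memU c).2 (hHU ((memH c).1 hc))) hcardH hC hP (Nat.cast_nonneg _)
    (by positivity) hlam hX1 hX0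
    (fun c hc => hup c ((memU c).1 hc))
    (fun c hc hn => hsm c ((memU c).1 hc) (fun hcH => hn ((memH c).2 hcH)))
    htot
  have hcast : (((Fintype.card F : ℝ) ^ s : ℝ) : ℂ) = (Fintype.card F : ℂ) ^ s := by
    push_cast
    rfl
  rw [hcast] at key
  exact key

end

end Pool.Agent.Helper89.FC
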